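import Pool.Agent.H65.NV.PTargets

/-! Board `nvk_modules`, row P_XCH (helper70): the sums over the pairs of ideals. -/

set_option autoImplicit false

open MeasureTheory Set Filter NumberField NumberField.InfinitePlace
open scoped Real

namespace Pool.Agent.H70.NVP_XCH

open Pool.Agent.H65.CM4 Pool.Agent.H61.NVK Pool.Agent.H89.NV Pool.Agent.H65.NV

variable (k : Type) [Field k] [NumberField k] [IsTotallyReal k]

theorem nm_one_le {I : Ideal (𝓞 k)} (hI : I ≠ ⊥) : 1 ≤ nm I := by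
  unfold nm
  have h1 : Ideal.absNorm I ≠ 0 := by
    rw [Ne, Ideal.absNorm_eq_zero_iff]
    exact hI
  exact_mod_cast Nat.one_le_iff_ne_zero.2 h1

theorem nm_bot : nm (⊥ : Ideal (𝓞 k)) = 0 := by
  unfold nm
  rw [Ideal.absNorm_bot, Nat.cast_zero]

theorem nm_e2A (e A : Ideal (𝓞 k)) : nm (e ^ 2 * A) = nm e ^ 2 * nm A := by
  unfold nm
  rw [map_mul, map_pow]
  push_cast
  rfl

theorem nS_one_le (S : Finset (PrI k)) : 1 ≤ nS S := by
  unfold nS
  have : ∏ _P ∈ S, (1 : ℝ) ≤ ∏ P ∈ S, np P :=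
    Finset.prod_le_prod (fun _ _ => zero_le_one) (fun P _ => nm_one_le k P.2.2)
  rwa [Finset.prod_const_one] at this

/-- the pairs of ideals are countable -/
theorem cnt (hISM : T_ISM k) : Countable (Ideal (𝓞 k)) := by
  have h1 := hISM.countable_support
  have h2 : (Set.univ : Set (Ideal (𝓞 k))) ⊆
      insert ⊥ (Prod.fst '' (Function.support (fun x : Ideal (𝓞 k) × Ideal (𝓞 k) =>
        (nm x.1 ^ 2)⁻¹ * (nm x.2 ^ 2)⁻¹))) := by
    intro I _
    by_cases hI : I = ⊥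
    · exact Or.inl hI
    · refine Or.inr ⟨(I, ⊤), ?_, rfl⟩
      rw [Function.mem_support]
      have h3 := nm_one_le k hI
      have h4 := nm_one_le k (I := (⊤ : Ideal (𝓞 k))) top_ne_bot
      have h5 : 0 < nm I := by linarith
      have h6 : 0 < nm (⊤ : Ideal (𝓞 k)) := by linarith
      exact (mul_pos (inv_pos.2 (pow_pos h5 2)) (inv_pos.2 (pow_pos h6 2))).ne'
  have h3 : (Set.univ : Set (Ideal (𝓞 k))).Countable :=
    ((h1.image _).insert _).mono h2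
  exact Set.countable_univ_iff.1 h3

/-- the majorant -/
theorem maj {C T τ Z ne nA : ℝ} {j : ℕ} (hC : 0 < C) (hT : 1 ≤ T) (hτ : 0 < τ) (hZ : 0 < Z)
    (he : 1 ≤ ne) (hA : 1 ≤ nA) :
    C * (T * ne * nA) ^ j * (1 + ne ^ 2 * nA / (Z * τ)) ^ (-((j + 2 : ℕ) : ℝ)) ≤
      C * T ^ j * (Z * τ) ^ (j + 2) * ((ne ^ 2)⁻¹ * (nA ^ 2)⁻¹) := by
  have he0 : 0 < ne := by linarith
  have hA0 : 0 < nA := by linarith
  have hT0 : 0 < T := by linarith
  have hy : 0 < ne ^ 2 * nA / (Z * τ) := by positivity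
  have h1 : (1 + ne ^ 2 * nA / (Z * τ)) ^ (-((j + 2 : ℕ) : ℝ)) ≤
      ((ne ^ 2 * nA / (Z * τ)) ^ (j + 2))⁻¹ := by
    rw [Real.rpow_neg (by positivity), Real.rpow_natCast]
    apply inv_anti₀ (by positivity)
    exact pow_le_pow_left₀ hy.le (by linarith) _
  calc C * (T * ne * nA) ^ j * (1 + ne ^ 2 * nA / (Z * τ)) ^ (-((j + 2 : ℕ) : ℝ))
      ≤ C * (T * ne * nA) ^ j * ((ne ^ 2 * nA / (Z * τ)) ^ (j + 2))⁻¹ :=
        mul_le_mul_of_nonneg_left h1 (by positivity)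
    _ = C * T ^ j * (Z * τ) ^ (j + 2) * ((ne ^ 2)⁻¹ * (nA ^ 2)⁻¹) * (ne ^ (j + 2))⁻¹ := by
        rw [div_pow, mul_pow, mul_pow, mul_pow, inv_div, div_eq_mul_inv]
        have h2 : (ne ^ 2) ^ (j + 2) = ne ^ j * ne ^ 2 * ne ^ (j + 2) := by
          rw [← pow_mul, ← pow_add, ← pow_add]
          congr 1
          ring
        have h3 : nA ^ (j + 2) = nA ^ j * nA ^ 2 := pow_add _ _ _
        rw [h2, h3]
        field_simp
    _ ≤ C * T ^ j * (Z * τ) ^ (j + 2) * ((ne ^ 2)⁻¹ * (nA ^ 2)⁻¹) * 1 := by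
        apply mul_le_mul_of_nonneg_left _ (by positivity)
        exact inv_le_one_of_one_le₀ (one_le_pow₀ he)
    _ = _ := mul_one _

theorem wt_bot (f : Ideal (𝓞 k)) (n : ℝ) (e A : Ideal (𝓞 k)) (d : Pl k → ℝ)
    (h : e = ⊥ ∨ A = ⊥) : wt f n e A d = 0 := by
  unfold wt
  have h1 : nm (e ^ 2 * A) = 0 := by
    rw [nm_e2A]
    rcases h with h | h
    · rw [h, nm_bot]
      ring
    · rw [h, nm_bot]
      ring
  rw [h1, Real.sqrt_zero, div_zero]

/-- **P_XCH** -/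
theorem pf_XCH (hTAD : T_TAD k) (hCTM : T_CTM k) (hISM : T_ISM k) : T_XCH k := by
  intro f q G η hf hq hG n K hn T m₁ m₂ w hT hw hm1 hm2
  obtain ⟨j, hj⟩ := hTAD f q G η hf hq hG n K hn
  obtain ⟨C, hC, hb⟩ := hj (j + 2)
  obtain ⟨C0, hC0, hctm⟩ := hCTM f q G η hf hG
  obtain ⟨⟨s, -, hs⟩, ⟨S, hSm, -, hSf, hS⟩, hmeas⟩ := hctm T hT
  have hcnt := cnt k hISM
  have hT0 : 0 < T := by linarith
  have hτ : 0 < T ^ ((dg k : ℝ) / 2) := Real.rpow_pos_of_pos hT0 _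
  have hn1 := nS_one_le k m₁
  have hn2 := nS_one_le k m₂
  have hZ : 0 < n * nS m₁ * nS m₂ := by
    have h1 : 0 < nS m₁ := by linarith
    have h2 : 0 < nS m₂ := by linarith
    have h3 : 0 < n := by linarith
    positivity
  obtain ⟨C', hC'⟩ : ∃ C' : ℝ, C' = C * T ^ j * (n * nS m₁ * nS m₂ * T ^ ((dg k : ℝ) / 2)) ^ (j + 2) :=
    ⟨_, rfl⟩
  have hC'0 : 0 < C' := by rw [hC']; positivity
  obtain ⟨M, hM⟩ : ∃ M : Ideal (𝓞 k) × Ideal (𝓞 k) → ℝ,
      M = fun x => C' * ((nm x.1 ^ 2)⁻¹ * (nm x.2 ^ 2)⁻¹) := ⟨_, rfl⟩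
  have hMs : Summable M := by
    rw [hM]
    exact hISM.mul_left C'
  have hM0 : ∀ x, 0 ≤ M x := by
    intro x
    rw [hM]
    positivity
  have hTz : ∀ (x : Ideal (𝓞 k) × Ideal (𝓞 k)) (D : 𝓞 k), (x.1 = ⊥ ∨ x.2 = ⊥) →
      Tm f G T n m₁ m₂ w x.1 x.2 D = 0 := by
    intro x D h
    unfold Tm
    rw [Finset.sum_eq_zero, mul_zero]
    intro b _
    rw [wt_bot k f _ x.1 x.2 _ h]
    ring
  have hDz : ∀ (x : Ideal (𝓞 k) × Ideal (𝓞 k)) (d : Pl k → ℝ), (x.1 = ⊥ ∨ x.2 = ⊥) →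
      Dm f q G T n m₁ m₂ w x.1 x.2 d = 0 := by
    intro x d h
    unfold Dm
    rw [wt_bot k f _ x.1 x.2 _ h]
    ring
  have hTb : ∀ (x : Ideal (𝓞 k) × Ideal (𝓞 k)) (D : 𝓞 k),
      ‖Tm f G T n m₁ m₂ w x.1 x.2 D‖ ≤ M x := by
    intro x D
    by_cases h : x.1 = ⊥ ∨ x.2 = ⊥
    · rw [hTz x D h, norm_zero]
      exact hM0 x
    · rw [not_or] at h
      have h1 := (hb T m₁ m₂ w x.1 x.2 hT hw hm1 hm2 h.1 h.2).1 D
      rw [nm_e2A] at h1
      rw [Real.norm_eq_abs]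
      refine h1.trans ?_
      rw [hM, hC']
      exact maj hC hT hτ hZ (nm_one_le k h.1) (nm_one_le k h.2)
  have hDb : ∀ (x : Ideal (𝓞 k) × Ideal (𝓞 k)) (d : Pl k → ℝ),
      ‖Dm f q G T n m₁ m₂ w x.1 x.2 d‖ ≤ M x := by
    intro x d
    by_cases h : x.1 = ⊥ ∨ x.2 = ⊥
    · rw [hDz x d h, norm_zero]
      exact hM0 x
    · rw [not_or] at h
      have h1 := (hb T m₁ m₂ w x.1 x.2 hT hw hm1 hm2 h.1 h.2).2 d
      rw [nm_e2A] at h1
      rw [Real.norm_eq_abs]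
      refine h1.trans ?_
      rw [hM, hC']
      exact maj hC hT hτ hZ (nm_one_le k h.1) (nm_one_le k h.2)
  -- the discrete part
  have hT1 : ∀ x : Ideal (𝓞 k) × Ideal (𝓞 k), ∑' D : 𝓞 k, Tm f G T n m₁ m₂ w x.1 x.2 D =
      ∑ D ∈ s, Tm f G T n m₁ m₂ w x.1 x.2 D := by
    intro x
    refine tsum_eq_sum ?_
    intro D hD
    unfold Tm
    rw [hs D hD, zero_mul]
  have hTs : ∀ D : 𝓞 k, Summable (fun x : Ideal (𝓞 k) × Ideal (𝓞 k) =>
      Tm f G T n m₁ m₂ w x.1 x.2 D) := fun D => Summable.of_norm_bounded hMs fun x => hTb x D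
  have hTS : Summable (fun x : Ideal (𝓞 k) × Ideal (𝓞 k) =>
      ∑' D : 𝓞 k, Tm f G T n m₁ m₂ w x.1 x.2 D) := by
    simp only [hT1]
    exact summable_sum fun D _ => hTs D
  have hUS : ∀ D : 𝓞 k, G (fun v => em D v / T) *
      US f D (fun e A b c => wt f (n * nS m₁ * nS m₂) e A (em D) * w e A b c *
        Nw f m₁ m₂ e A b c) (fun A b _ => zf A f (em b) (em D)) =
      ∑' x : Ideal (𝓞 k) × Ideal (𝓞 k), Tm f G T n m₁ m₂ w x.1 x.2 D := by
    intro D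
    unfold US
    rw [← tsum_mul_left]
    rfl
  have hDT : ∑' D : 𝓞 k, G (fun v => em D v / T) *
      US f D (fun e A b c => wt f (n * nS m₁ * nS m₂) e A (em D) * w e A b c *
        Nw f m₁ m₂ e A b c) (fun A b _ => zf A f (em b) (em D)) =
      ∑' x : Ideal (𝓞 k) × Ideal (𝓞 k), ∑' D : 𝓞 k, Tm f G T n m₁ m₂ w x.1 x.2 D := by
    simp only [hT1]
    rw [Summable.tsum_finsetSum (fun D _ => hTs D)]
    rw [tsum_eq_sum (s := s) (fun D hD => by rw [hs D hD, zero_mul])]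
    exact Finset.sum_congr rfl fun D _ => hUS D
  -- the continuous part
  have hDm : ∀ x : Ideal (𝓞 k) × Ideal (𝓞 k),
      Measurable (fun d => Dm f q G T n m₁ m₂ w x.1 x.2 d) := by
    intro x
    by_cases h : x.1 = ⊥ ∨ x.2 = ⊥
    · have : (fun d => Dm f q G T n m₁ m₂ w x.1 x.2 d) = fun _ => 0 := by
        funext d
        exact hDz x d h
      rw [this]
      exact measurable_const
    · rw [not_or] at h
      exact hmeas n m₁ m₂ w x.1 x.2 hn h.1 h.2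
  have hDS : ∀ (x : Ideal (𝓞 k) × Ideal (𝓞 k)) (d : Pl k → ℝ), d ∉ S →
      Dm f q G T n m₁ m₂ w x.1 x.2 d = 0 := by
    intro x d hd
    unfold Dm
    rw [hS d hd, zero_mul]
  have hDi : ∀ x : Ideal (𝓞 k) × Ideal (𝓞 k),
      Integrable (fun d => Dm f q G T n m₁ m₂ w x.1 x.2 d) := by
    intro x
    have h1 : IntegrableOn (fun d => Dm f q G T n m₁ m₂ w x.1 x.2 d) S := by
      refine Measure.integrableOn_of_bounded (M := M x) hSf (hDm x).aestronglyMeasurable ?_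
      filter_upwards with d
      exact hDb x d
    exact h1.integrable_of_forall_notMem_eq_zero (hDS x)
  have hDn : Summable (fun x : Ideal (𝓞 k) × Ideal (𝓞 k) =>
      ∫ d, ‖Dm f q G T n m₁ m₂ w x.1 x.2 d‖) := by
    refine Summable.of_nonneg_of_le (fun x => integral_nonneg fun d => norm_nonneg _) ?_
      (hMs.mul_right (volume.real S))
    intro x
    have h1 : ∫ d, ‖Dm f q G T n m₁ m₂ w x.1 x.2 d‖ =
        ∫ d in S, ‖Dm f q G T n m₁ m₂ w x.1 x.2 d‖ := by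
      symm
      refine setIntegral_eq_integral_of_forall_compl_eq_zero ?_
      intro d hd
      rw [hDS x d hd, norm_zero]
    rw [h1]
    have h2 : ∫ d in S, ‖Dm f q G T n m₁ m₂ w x.1 x.2 d‖ ≤ ∫ _ in S, M x := by
      refine setIntegral_mono_on (hDi x).norm.integrableOn (integrableOn_const (hs := hSf)) hSm ?_
      intro d _
      exact hDb x d
    rw [setIntegral_const, smul_eq_mul, mul_comm] at h2
    exact h2
  have hMn : ∀ d : Pl k → ℝ, G (fun v => d v / T) * Mn f q n m₁ m₂ w d =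
      ∑' x : Ideal (𝓞 k) × Ideal (𝓞 k), Dm f q G T n m₁ m₂ w x.1 x.2 d := by
    intro d
    unfold Mn
    rw [← tsum_mul_left]
    rfl
  have hDint : ∫ d : Pl k → ℝ, G (fun v => d v / T) * Mn f q n m₁ m₂ w d =
      ∑' x : Ideal (𝓞 k) × Ideal (𝓞 k), ∫ d, Dm f q G T n m₁ m₂ w x.1 x.2 d := by
    simp only [hMn]
    exact (integral_tsum_of_summable_integral_norm hDi hDn).symm
  have hDsum : Summable (fun x : Ideal (𝓞 k) × Ideal (𝓞 k) =>
      ∫ d, Dm f q G T n m₁ m₂ w x.1 x.2 d) :=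
    Summable.of_norm_bounded hDn fun x => norm_integral_le_integral_norm _
  refine ⟨hTS.sub (hDsum.mul_left _), ?_⟩
  rw [hTS.tsum_sub (hDsum.mul_left _), tsum_mul_left, hDT, hDint]

end Pool.Agent.H70.NVP_XCH
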